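import Pool.Agent.LX.Main

set_option autoImplicit false

namespace Pool.Agent.Results.MP_063baf_nt.BoundedLinearForm

/-- For all natural numbers `a, b, c, d`, not all zero, there is a finite set `S` of natural
numbers such that every sufficiently large integer `n` has a representation
`n = x ^ 2 + y ^ 2 + z ^ 2 + 2 * w ^ 2` in integers with `a x + b y + c z + d w` in `S`. -/
theorem result :
    ∀ a b c d : ℕ, a ^ 2 + b ^ 2 + c ^ 2 + d ^ 2 ≠ 0 →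
      ∃ S : Set ℕ, S.Finite ∧ ∃ N₀ : ℤ, ∀ n : ℤ, N₀ ≤ n →
        ∃ x y z w : ℤ, n = x ^ 2 + y ^ 2 + z ^ 2 + 2 * w ^ 2 ∧
          ∃ s ∈ S, (a : ℤ) * x + b * y + c * z + d * w = s := by
  intro a b c d h
  have h' : ¬ (a = 0 ∧ b = 0 ∧ c = 0 ∧ d = 0) := by
    rintro ⟨rfl, rfl, rfl, rfl⟩
    exact h rfl
  obtain ⟨S, N₀, hS⟩ := Pool.Agent.LX.main a b c d h'
  refine ⟨(S : Set ℕ), S.finite_toSet, (N₀ : ℤ), fun n hn => ?_⟩
  have hn0 : (0 : ℤ) ≤ n := le_trans (Int.natCast_nonneg N₀) hn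
  obtain ⟨m, rfl⟩ := Int.eq_ofNat_of_zero_le hn0
  obtain ⟨x, y, z, w, h1, s, hs, h2⟩ := hS m (by exact_mod_cast hn)
  exact ⟨x, y, z, w, h1, s, by exact_mod_cast hs, h2⟩

end Pool.Agent.Results.MP_063baf_nt.BoundedLinearForm
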